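import Pool.Agent.Lib_helper63.G56.Zero
import Pool.Agent.Lib_helper11.GC56.K
import Pool.Agent.Lib_helper11.GC45.B1
import Pool.Agent.Lib_helper11.AAN.Shift

/-!
# Explicit constants on the window `4 < p < 5`

With `C1 = p (p - 1) / 2`, `κ = 2 ^ (p - 1) - 1`, `a = p (2 ^ (p - 2) - 1) / (p - 2)`:
* `C1 * (G₁ * G₂) ≤ a * κ * G₁₂` for all pairs;
* `G₁ * G₂ ≤ κ * G₁₂` if `|D_i| ≤ c_i A_i` and
  `c_i ^ (p - 2) * (κ * (κ - C1) - (κ - a) ^ 2) ≤ κ * C1 - a ^ 2`.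
-/

set_option autoImplicit false

open scoped BigOperators ComplexOrder Kronecker MatrixOrder
open MeasureTheory Set Matrix

namespace Pool.Agent.Lib_helper53.AAN

open Pool.Agent.RC Pool.Agent.RC.SER

variable {ι κ : Type} [Fintype ι] [DecidableEq ι] [Fintype κ] [DecidableEq κ]

/-- `2 ^ (p - 1) - 1` -/
noncomputable def kp (p : ℝ) : ℝ := 2 ^ (p - 1) - 1

/-- `p (p - 1) / 2` -/
noncomputable def c1 (p : ℝ) : ℝ := p * (p - 1) / 2

/-- `p (2 ^ (p - 2) - 1) / (p - 2)` -/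
noncomputable def aa (p : ℝ) : ℝ := p * (2 ^ (p - 2) - 1) / (p - 2)

/-- the weight -/
noncomputable def wt (p v : ℝ) : ℝ := v ^ (3 - p) * (((1 + v) ^ 3)⁻¹ * (1 + 2 * v)⁻¹)

theorem wt_nonneg (p : ℝ) {v : ℝ} (hv : 0 < v) : 0 ≤ wt p v := by
  unfold wt
  positivity

theorem moment1 {p : ℝ} (h4 : 4 < p) (h5 : p < 5) :
    IntegrableOn (fun v : ℝ => wt p v * v) (Ioi 0) ∧
    (REP.Bc p)⁻¹ * ∫ v in Ioi (0 : ℝ), wt p v * v = 2 ^ (p - 2) + p - 2 - p * (p - 1) / 2 := by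
  obtain ⟨w1, w2⟩ := Pool.Agent.Lib_helper5.R56.ww_moment (p := p + 1) (by linarith) (by linarith)
  have hB : (REP.Bc p)⁻¹ = -Real.sin (Real.pi * (p + 1)) / Real.pi := by
    have := REP.Bc_eq (p := p + 1) (by linarith) (by linarith)
    rwa [show p + 1 - 1 = p by ring] at this
  have e : ∀ z ∈ Ioi (0 : ℝ), Pool.Agent.Lib_helper5.R56.ww (p + 1) z * z ^ 2 = wt p z * z := by
    intro z hz
    have hz0 : (0 : ℝ) < z := hz
    have h1 : z ^ (3 - p) = z ^ (3 - (p + 1)) * z := by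
      rw [show 3 - p = (3 - (p + 1)) + 1 by ring, Real.rpow_add hz0, Real.rpow_one]
    unfold Pool.Agent.Lib_helper5.R56.ww wt
    rw [h1]
    field_simp
  refine ⟨w1.congr_fun e measurableSet_Ioi, ?_⟩
  rw [hB, ← setIntegral_congr_fun measurableSet_Ioi e, w2, show p + 1 - 3 = p - 2 by ring]
  ring

theorem k1_nonneg {p : ℝ} (h4 : 4 < p) (h5 : p < 5) :
    0 ≤ (2 : ℝ) ^ (p - 2) + p - 2 - p * (p - 1) / 2 := by
  rw [← (moment1 h4 h5).2]
  exact mul_nonneg (inv_nonneg.2 (REP.Bc_pos h4 h5).le)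
    (setIntegral_nonneg measurableSet_Ioi fun v hv => mul_nonneg (wt_nonneg p hv) (le_of_lt hv))

theorem two_rpow (p : ℝ) : (2 : ℝ) ^ (p - 1) = 2 * 2 ^ (p - 2) := by
  rw [show p - 1 = (p - 2) + 1 by ring, Real.rpow_add (by norm_num), Real.rpow_one]
  ring

theorem aa_mul {p : ℝ} (h4 : 4 < p) : aa p * (p - 2) = p * (2 ^ (p - 2) - 1) := by
  unfold aa
  exact div_mul_cancel₀ _ (by linarith)

theorem c1_le_aa {p : ℝ} (h4 : 4 < p) (h5 : p < 5) : c1 p ≤ aa p := by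
  have h := k1_nonneg h4 h5
  have h2 := aa_mul h4
  have hp : 0 < p - 2 := by linarith
  unfold c1
  nlinarith

theorem aa_lt_kp {p : ℝ} (h4 : 4 < p) : aa p < kp p := by
  have h2 := aa_mul h4
  have h3 : (0 : ℝ) < 2 ^ (p - 2) := by positivity
  have hp : 0 < p - 2 := by linarith
  have h5 : (p - 4) * 2 ^ (p - 2) ≥ 0 := mul_nonneg (by linarith) h3.le
  have h6 : aa p * (p - 2) < kp p * (p - 2) := by
    rw [h2]
    unfold kp
    rw [two_rpow]
    nlinarith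
  exact lt_of_mul_lt_mul_right h6 hp.le

theorem aa_le_kp {p : ℝ} (h4 : 4 < p) : aa p ≤ kp p := (aa_lt_kp h4).le

/-- the pair inequalities -/
theorem one {p : ℝ} (h4 : 4 < p) (h5 : p < 5) {a : ι → ℝ} (ha : ∀ i, 0 < a i)
    {D : Matrix ι ι ℂ} (h : IsPair (dg a) D) :
    0 ≤ tau p (dg a) D 0 ∧ tau p (dg a) D 0 ≤ REP.m1 p a D ∧
    c1 p * REP.m1 p a D + (kp p - c1 p) * tau p (dg a) D 0 ≤ G p (dg a) D ∧
    G p (dg a) D ≤ aa p * REP.m1 p a D + (kp p - aa p) * tau p (dg a) D 0 := by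
  have hp1 : 1 < p := by linarith
  obtain ⟨r1, r2⟩ := REP.rep h4 h5 ha h
  obtain ⟨w1, w2⟩ := moment1 h4 h5
  have hm : tau p (dg a) D 0 + (p - 2) / p * eta p (dg a) D 0 ≤ REP.m1 p a D :=
    B1.m1_low h4.le h5.le ha h
  have he : 0 ≤ eta p (dg a) D 0 := eta_nonneg (by linarith) h 0
  have hal : 0 < (p - 2) / p := div_pos (by linarith) (by linarith)
  have hB : 0 < (REP.Bc p)⁻¹ := inv_pos.2 (REP.Bc_pos h4 h5)
  have hI0 : 0 ≤ ∫ v in Ioi (0 : ℝ), v ^ (3 - p) * (((1 + v) ^ 3)⁻¹ * (1 + 2 * v)⁻¹) *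
        (tau p (dg a) D 0 - tau p (dg a) D v) := by
    refine setIntegral_nonneg measurableSet_Ioi fun v hv => ?_
    exact mul_nonneg (wt_nonneg p hv) (sub_nonneg.2 (tau_antitone hp1 h (le_of_lt hv)))
  have hI1 : ∫ v in Ioi (0 : ℝ), v ^ (3 - p) * (((1 + v) ^ 3)⁻¹ * (1 + 2 * v)⁻¹) *
        (tau p (dg a) D 0 - tau p (dg a) D v) ≤
        ∫ v in Ioi (0 : ℝ), wt p v * v * eta p (dg a) D 0 := by
    refine setIntegral_mono_on r1 (w1.mul_const _) measurableSet_Ioi fun v hv => ?_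
    have h1 := tau_tangent hp1 h 0 v
    have h2 := wt_nonneg p hv
    have h3 : tau p (dg a) D 0 - tau p (dg a) D v ≤ v * eta p (dg a) D 0 := by linarith
    have h4' := mul_le_mul_of_nonneg_left h3 h2
    have e : wt p v * v * eta p (dg a) D 0 = wt p v * (v * eta p (dg a) D 0) := by ring
    rw [e]
    exact h4'
  rw [integral_mul_const] at hI1
  have hI2 : (REP.Bc p)⁻¹ * ∫ v in Ioi (0 : ℝ), v ^ (3 - p) * (((1 + v) ^ 3)⁻¹ *
      (1 + 2 * v)⁻¹) * (tau p (dg a) D 0 - tau p (dg a) D v) ≤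
      (2 ^ (p - 2) + p - 2 - p * (p - 1) / 2) * eta p (dg a) D 0 := by
    have := mul_le_mul_of_nonneg_left hI1 hB.le
    rw [← mul_assoc, w2] at this
    exact this
  have hI3 := mul_nonneg hB.le hI0
  have hk := k1_nonneg h4 h5
  refine ⟨tau_nonneg _ _ _ _, ?_, ?_, ?_⟩
  · nlinarith [mul_nonneg hal.le he]
  · rw [r2]
    unfold c1 kp
    linarith
  · -- `e ≤ p / (p - 2) (m - t)`
    have h6 : (p - 2) * eta p (dg a) D 0 ≤ p * (REP.m1 p a D - tau p (dg a) D 0) := by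
      have h7 : (p - 2) / p * eta p (dg a) D 0 ≤ REP.m1 p a D - tau p (dg a) D 0 := by linarith
      have h8 := mul_le_mul_of_nonneg_left h7 (show 0 ≤ p by linarith)
      have e : p * ((p - 2) / p * eta p (dg a) D 0) = (p - 2) * eta p (dg a) D 0 := by
        field_simp
      rwa [e] at h8
    have h9 : (p - 2) * G p (dg a) D ≤ (p - 2) * (aa p * REP.m1 p a D +
        (kp p - aa p) * tau p (dg a) D 0) := by
      have e1 : (p - 2) * (aa p * REP.m1 p a D + (kp p - aa p) * tau p (dg a) D 0) =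
          (aa p * (p - 2)) * (REP.m1 p a D - tau p (dg a) D 0) +
            (p - 2) * kp p * tau p (dg a) D 0 := by ring
      rw [e1, aa_mul h4]
      have h10 := mul_le_mul_of_nonneg_left h6 hk
      have h11 := mul_le_mul_of_nonneg_left hI2 (show 0 ≤ p - 2 by linarith)
      rw [r2]
      unfold kp
      nlinarith [h10, h11]
    exact le_of_mul_le_mul_left h9 (by linarith)

/-- lower bound of the tensor pair -/
theorem two {p : ℝ} (h4 : 4 < p) (h5 : p < 5) {a : ι → ℝ} (ha : ∀ i, 0 < a i)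
    {b : κ → ℝ} (hb : ∀ i, 0 < b i) {D₁ : Matrix ι ι ℂ} {D₂ : Matrix κ κ ℂ}
    (h₁ : IsPair (dg a) D₁) (h₂ : IsPair (dg b) D₂) :
    c1 p * (REP.m1 p a D₁ * REP.m1 p b D₂) +
      (kp p - c1 p) * (tau p (dg a) D₁ 0 * tau p (dg b) D₂ 0) ≤
      G p (dg a ⊗ₖ dg b) (D₁ ⊗ₖ D₂) := by
  have hVW := h₁.kron h₂
  obtain ⟨z1, -⟩ := G56.zero (p := p) (by linarith) h₁ h₂
  have hab : ∀ x : ι × κ, 0 < a x.1 * b x.2 := fun x => mul_pos (ha _) (hb _)
  have hM := M1K.m1_kron (show 3 ≤ p by linarith) ha hb D₁ h₂.hermD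
  rw [G56.dg_kron] at hVW z1 ⊢
  obtain ⟨-, -, l1, -⟩ := one h4 h5 hab hVW
  rw [z1] at l1
  have hc : 0 ≤ c1 p := by unfold c1; nlinarith
  have := mul_le_mul_of_nonneg_left hM hc
  unfold REP.m1 at *
  linarith

end Pool.Agent.Lib_helper53.AAN
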