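import Pool.Agent.Lib_helper53.AAN.Win45
import Pool.Agent.Lib_helper41.AAN.Main

/-!
# The window `4 < p < 5`: the two inequalities for strict pairs
-/

set_option autoImplicit false

open scoped BigOperators ComplexOrder Kronecker MatrixOrder
open MeasureTheory Set Matrix

namespace Pool.Agent.Lib_helper53.AAN

open Pool.Agent.RC Pool.Agent.RC.SER Pool.Agent.Lib_helper11.AAN

variable {ι κ : Type} [Fintype ι] [DecidableEq ι] [Fintype κ] [DecidableEq κ]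

theorem pp_mul {p c : ℝ} (hc : 0 ≤ c) (x : ℝ) : INE.pp p (c * x) = c ^ p * INE.pp p x := by
  unfold INE.pp
  have h : max (c * x) 0 = c * max x 0 := by
    rw [mul_max_of_nonneg _ _ hc, mul_zero]
  rw [h, Real.mul_rpow hc (le_max_right _ _)]

theorem trF_pp_smul {p c : ℝ} (hc : 0 ≤ c) {M : Matrix ι ι ℂ} (hM : M.IsHermitian) :
    trF (INE.pp p) ((c : ℂ) • M) = c ^ p * trF (INE.pp p) M := by
  obtain ⟨U, h1, h2, h3⟩ := exists_diag_eig hM
  have e1 : M = U * Matrix.diagonal (fun i => (hM.eigenvalues i : ℂ)) * Uᴴ := by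
    rw [← h3]
    calc M = (U * Uᴴ) * M * (U * Uᴴ) := by rw [h1]; simp
      _ = _ := by noncomm_ring
  have e2 : (c : ℂ) • M =
      U * Matrix.diagonal (fun i => ((c * hM.eigenvalues i : ℝ) : ℂ)) * Uᴴ := by
    have e3 : Matrix.diagonal (fun i => ((c * hM.eigenvalues i : ℝ) : ℂ)) =
        (c : ℂ) • Matrix.diagonal (fun i => (hM.eigenvalues i : ℂ)) := by
      ext i j
      by_cases hij : i = j
      · subst hij; simp
      · simp [hij]
    rw [e3, Matrix.mul_smul, Matrix.smul_mul, ← e1]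
  rw [e2, TRF.trF_conj _ h2]
  conv_rhs => rw [e1, TRF.trF_conj _ h2, Finset.mul_sum]
  exact Finset.sum_congr rfl fun i _ => pp_mul hc _

theorem tau_smul {p c : ℝ} (hc : 0 ≤ c) (A : Matrix ι ι ℂ) {D : Matrix ι ι ℂ}
    (hD : D.IsHermitian) : tau p A ((c : ℂ) • D) 0 = c ^ p * tau p A D 0 := by
  rw [tau_zero, tau_zero, ← smul_neg, trF_pp_smul hc hD, trF_pp_smul hc hD.neg]
  ring

theorem m1_smul {p c : ℝ} (a : ι → ℝ) (D : Matrix ι ι ℂ) :
    REP.m1 p a ((c : ℂ) • D) = c ^ 2 * REP.m1 p a D := by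
  unfold REP.m1
  rw [Finset.mul_sum]
  refine Finset.sum_congr rfl fun i _ => ?_
  rw [Finset.mul_sum]
  refine Finset.sum_congr rfl fun j _ => ?_
  rw [Matrix.smul_apply, norm_smul, Complex.norm_real, mul_pow, Real.norm_eq_abs, sq_abs]
  ring

/-- `t ≤ c ^ (p - 2) m` if `|D| ≤ c A` -/
theorem tau_le_c {p c : ℝ} (h4 : 4 < p) (h5 : p < 5) (h0 : 0 ≤ c) {a : ι → ℝ}
    (ha : ∀ i, 0 < a i) {D : Matrix ι ι ℂ} (h : IsPair (dg a) D)
    (hm : ((c : ℂ) • dg a - D).PosSemidef) (hp : ((c : ℂ) • dg a + D).PosSemidef) :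
    tau p (dg a) D 0 ≤ c ^ (p - 2) * REP.m1 p a D := by
  rcases h0.eq_or_lt with h0 | h0
  · subst h0
    have hD : D = 0 := by
      rw [Complex.ofReal_zero, zero_smul, zero_sub] at hm
      rw [Complex.ofReal_zero, zero_smul, zero_add] at hp
      have h1 : (0 : Matrix ι ι ℂ) ≤ D := Matrix.nonneg_iff_posSemidef.2 hp
      have h2 : (0 : Matrix ι ι ℂ) ≤ -D := Matrix.nonneg_iff_posSemidef.2 hm
      exact le_antisymm (neg_nonneg.1 h2) h1
    subst hD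
    obtain ⟨q1, q2, -, -⟩ := one h4 h5 ha h
    have e : REP.m1 p a (0 : Matrix ι ι ℂ) = 0 := by
      unfold REP.m1
      simp
    rw [e, mul_zero]
    rw [e] at q2
    exact q2
  · have hc : (0 : ℂ) ≤ ((c⁻¹ : ℝ) : ℂ) := by
      exact_mod_cast (inv_pos.2 h0).le
    have hcc : ((c⁻¹ : ℝ) : ℂ) * (c : ℂ) = 1 := by
      rw [← Complex.ofReal_mul, inv_mul_cancel₀ h0.ne', Complex.ofReal_one]
    have hpair : IsPair (dg a) (((c⁻¹ : ℝ) : ℂ) • D) := by
      refine ⟨h.pos, ?_, ?_⟩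
      · have := hm.smul hc
        rwa [smul_sub, smul_smul, hcc, one_smul] at this
      · have := hp.smul hc
        rwa [smul_add, smul_smul, hcc, one_smul] at this
    obtain ⟨-, q2, -, -⟩ := one h4 h5 ha hpair
    rw [tau_smul (inv_pos.2 h0).le (dg a) h.hermD, m1_smul] at q2
    have h7 : c ^ p * (c⁻¹ ^ p * tau p (dg a) D 0) ≤ c ^ p * (c⁻¹ ^ 2 * REP.m1 p a D) :=
      mul_le_mul_of_nonneg_left q2 (Real.rpow_nonneg h0.le _)
    have e1 : c ^ p * c⁻¹ ^ p = 1 := by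
      rw [← Real.mul_rpow h0.le (inv_pos.2 h0).le, mul_inv_cancel₀ h0.ne', Real.one_rpow]
    have e2 : c ^ p * c⁻¹ ^ 2 = c ^ (p - 2) := by
      rw [Real.rpow_sub h0, inv_pow, ← div_eq_mul_inv]
      norm_num
    rw [← mul_assoc, ← mul_assoc, e1, e2, one_mul] at h7
    exact h7

/-- the factor for all strict pairs with diagonal `A` -/
theorem all_dg {p : ℝ} (h4 : 4 < p) (h5 : p < 5) {a : ι → ℝ} {b : κ → ℝ}
    (ha : ∀ i, 0 < a i) (hb : ∀ i, 0 < b i) {D₁ : Matrix ι ι ℂ} {D₂ : Matrix κ κ ℂ}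
    (h₁ : IsPair (dg a) D₁) (h₂ : IsPair (dg b) D₂) :
    c1 p * (G p (dg a) D₁ * G p (dg b) D₂) ≤
      aa p * kp p * G p (dg a ⊗ₖ dg b) (D₁ ⊗ₖ D₂) := by
  obtain ⟨t0, tm, l, u⟩ := one h4 h5 ha h₁
  obtain ⟨t0', tm', l', u'⟩ := one h4 h5 hb h₂
  have w := two h4 h5 ha hb h₁ h₂
  have k1 := c1_le_aa h4 h5
  have k2 := aa_le_kp h4
  have k0 : 0 ≤ c1 p := by unfold c1; nlinarith
  set m := REP.m1 p a D₁
  set m' := REP.m1 p b D₂
  set t := tau p (dg a) D₁ 0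
  set t' := tau p (dg b) D₂ 0
  have n0 : 0 ≤ m - t := by linarith
  have n0' : 0 ≤ m' - t' := by linarith
  have hG : 0 ≤ G p (dg a) D₁ := by
    refine le_trans ?_ l
    have i1 : 0 ≤ c1 p * m := mul_nonneg k0 (by linarith)
    have i2 : 0 ≤ (kp p - c1 p) * t := mul_nonneg (by linarith) t0
    linarith
  have hG' : 0 ≤ G p (dg b) D₂ := by
    refine le_trans ?_ l'
    have i1 : 0 ≤ c1 p * m' := mul_nonneg k0 (by linarith)
    have i2 : 0 ≤ (kp p - c1 p) * t' := mul_nonneg (by linarith) t0'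
    linarith
  have hU : G p (dg a) D₁ * G p (dg b) D₂ ≤
      (aa p * m + (kp p - aa p) * t) * (aa p * m' + (kp p - aa p) * t') :=
    mul_le_mul u u' hG' (hG.trans u)
  have hA : 0 ≤ aa p * kp p := mul_nonneg (by linarith) (by linarith)
  have s1 := mul_le_mul_of_nonneg_left hU k0
  have s2 := mul_le_mul_of_nonneg_left w hA
  refine s1.trans (le_trans ?_ s2)
  have e : aa p * kp p * (c1 p * (m * m') + (kp p - c1 p) * (t * t')) -
      c1 p * ((aa p * m + (kp p - aa p) * t) * (aa p * m' + (kp p - aa p) * t')) =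
      kp p ^ 2 * (aa p - c1 p) * (t * t') +
        c1 p * aa p * (kp p - aa p) * ((m - t) * (m' - t')) := by ring
  have p1 : 0 ≤ kp p ^ 2 * (aa p - c1 p) * (t * t') :=
    mul_nonneg (mul_nonneg (sq_nonneg _) (by linarith)) (mul_nonneg t0 t0')
  have p2 : 0 ≤ c1 p * aa p * (kp p - aa p) * ((m - t) * (m' - t')) :=
    mul_nonneg (mul_nonneg (mul_nonneg k0 (by linarith)) (by linarith)) (mul_nonneg n0 n0')
  linarith

/-- Q1 for noisy strict pairs with diagonal `A` -/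
theorem noisy_dg {p x y : ℝ} (h4 : 4 < p) (h5 : p < 5) (hx0 : 0 ≤ x) (hy0 : 0 ≤ y)
    (hx : x ^ (p - 2) * (kp p * (kp p - c1 p) - (kp p - aa p) ^ 2) ≤
      kp p * c1 p - aa p ^ 2)
    (hy : y ^ (p - 2) * (kp p * (kp p - c1 p) - (kp p - aa p) ^ 2) ≤
      kp p * c1 p - aa p ^ 2)
    {a : ι → ℝ} {b : κ → ℝ}
    (ha : ∀ i, 0 < a i) (hb : ∀ i, 0 < b i) {D₁ : Matrix ι ι ℂ} {D₂ : Matrix κ κ ℂ}
    (h₁ : IsPair (dg a) D₁) (h₂ : IsPair (dg b) D₂)
    (h₁m : ((x : ℂ) • dg a - D₁).PosSemidef) (h₁p : ((x : ℂ) • dg a + D₁).PosSemidef)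
    (h₂m : ((y : ℂ) • dg b - D₂).PosSemidef) (h₂p : ((y : ℂ) • dg b + D₂).PosSemidef) :
    G p (dg a) D₁ * G p (dg b) D₂ ≤ kp p * G p (dg a ⊗ₖ dg b) (D₁ ⊗ₖ D₂) := by
  obtain ⟨t0, tm, l, u⟩ := one h4 h5 ha h₁
  obtain ⟨t0', tm', l', u'⟩ := one h4 h5 hb h₂
  have w := two h4 h5 ha hb h₁ h₂
  have k1 := c1_le_aa h4 h5
  have k2 := aa_le_kp h4
  have k0 : 0 < c1 p := by unfold c1; nlinarith
  have tc := tau_le_c h4 h5 hx0 ha h₁ h₁m h₁p
  have tc' := tau_le_c h4 h5 hy0 hb h₂ h₂m h₂p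
  set m := REP.m1 p a D₁
  set m' := REP.m1 p b D₂
  set t := tau p (dg a) D₁ 0
  set t' := tau p (dg b) D₂ 0
  have m0 : 0 ≤ m := t0.trans tm
  have m0' : 0 ≤ m' := t0'.trans tm'
  have hG : 0 ≤ G p (dg a) D₁ := by
    refine le_trans ?_ l
    have i1 : 0 ≤ c1 p * m := mul_nonneg k0.le m0
    have i2 : 0 ≤ (kp p - c1 p) * t := mul_nonneg (by linarith) t0
    linarith
  have hG' : 0 ≤ G p (dg b) D₂ := by
    refine le_trans ?_ l'
    have i1 : 0 ≤ c1 p * m' := mul_nonneg k0.le m0'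
    have i2 : 0 ≤ (kp p - c1 p) * t' := mul_nonneg (by linarith) t0'
    linarith
  have hU : G p (dg a) D₁ * G p (dg b) D₂ ≤
      (aa p * m + (kp p - aa p) * t) * (aa p * m' + (kp p - aa p) * t') :=
    mul_le_mul u u' hG' (hG.trans u)
  have s2 := mul_le_mul_of_nonneg_left w (show 0 ≤ kp p by linarith)
  refine hU.trans (le_trans ?_ s2)
  -- `X = κ c1 - a²`, `Y = a (κ - a)`, `W = κ (κ - c1) - (κ - a)² = 2 Y - X`
  set X := kp p * c1 p - aa p ^ 2 with hX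
  set W := kp p * (kp p - c1 p) - (kp p - aa p) ^ 2 with hW
  set Y := aa p * (kp p - aa p) with hY
  have hWY : W = 2 * Y - X := by rw [hW, hY, hX]; ring
  have hYX : 0 ≤ Y - X := by
    have e : Y - X = kp p * (aa p - c1 p) := by rw [hY, hX]; ring
    rw [e]
    exact mul_nonneg (by linarith) (by linarith)
  have f0 : (kp p * (c1 p * (m * m') + (kp p - c1 p) * (t * t'))) -
      (aa p * m + (kp p - aa p) * t) * (aa p * m' + (kp p - aa p) * t') =
      X * (m * m') - Y * (m * t' + t * m') + W * (t * t') := by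
    rw [hX, hY, hW]; ring
  have hW0 : 0 < W := by
    have e : W = Y + (Y - X) := by rw [hWY]; ring
    have hY0 : 0 < Y := mul_pos (by linarith) (by linarith [aa_lt_kp h4])
    rw [e]
    linarith
  have v : 0 ≤ X * m - W * t := by
    have q1 := mul_le_mul_of_nonneg_left tc hW0.le
    have q2 := mul_le_mul_of_nonneg_right hx m0
    have q3 : W * (x ^ (p - 2) * m) = x ^ (p - 2) * W * m := by ring
    rw [q3] at q1
    linarith
  have v' : 0 ≤ X * m' - W * t' := by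
    have q1 := mul_le_mul_of_nonneg_left tc' hW0.le
    have q2 := mul_le_mul_of_nonneg_right hy m0'
    have q3 : W * (y ^ (p - 2) * m') = y ^ (p - 2) * W * m' := by ring
    rw [q3] at q1
    linarith
  have e : W * (X * (m * m') - Y * (m * t' + t * m') + W * (t * t')) =
      (m * (X * m' - W * t') + m' * (X * m - W * t)) * (Y - X) +
        (X * m - W * t) * (X * m' - W * t') + X * (m * m') * (W - 2 * Y + X) := by ring
  have e0 : W - 2 * Y + X = 0 := by rw [hWY]; ring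
  rw [e0, mul_zero, add_zero] at e
  have f1 : 0 ≤ W * (X * (m * m') - Y * (m * t' + t * m') + W * (t * t')) := by
    rw [e]
    exact add_nonneg (mul_nonneg (add_nonneg (mul_nonneg m0 v') (mul_nonneg m0' v)) hYX)
      (mul_nonneg v v')
  have f2 : 0 ≤ X * (m * m') - Y * (m * t' + t * m') + W * (t * t') :=
    nonneg_of_mul_nonneg_right f1 hW0
  linarith

/-- **`4 < p < 5`, all strict pairs**: the inequality up to the factor `c1 / aa` -/
theorem strictN_all {p : ℝ} (h4 : 4 < p) (h5 : p < 5) :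
    StrictN p 1 1 (c1 p) (aa p * kp p) := by
  intro ι κ _ _ _ _ A₁ D₁ A₂ D₂ h1 h2 h1m h1p h3 h4' h2m h2p
  obtain ⟨U, a, D₁', hU, rfl, rfl, hp1, -⟩ := Pool.Agent.Lib_helper41.AAN.red A₁ D₁ h1 h2
  obtain ⟨V, b, D₂', hV, rfl, rfl, hp2, -⟩ := Pool.Agent.Lib_helper41.AAN.red A₂ D₂ h3 h4'
  rw [G56.kron_conj, G56.kron_conj, G56.G_conj p hU hp1.pos.1 hp1.isPair.hermD,
    G56.G_conj p hV hp2.pos.1 hp2.isPair.hermD,
    G56.G_conj p (G56.kron_unitary hU hV) (hp1.isPair.kron hp2.isPair).hermA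
      (hp1.isPair.kron hp2.isPair).hermD]
  exact all_dg h4 h5 (fun i => G56.dg_pos hp1.pos i) (fun i => G56.dg_pos hp2.pos i)
    hp1.isPair hp2.isPair

/-- **`4 < p < 5`, noisy strict pairs**: the inequality itself -/
theorem strictN_noisy {p x y : ℝ} (h4 : 4 < p) (h5 : p < 5) (hx0 : 0 ≤ x) (hy0 : 0 ≤ y)
    (hx : x ^ (p - 2) * (kp p * (kp p - c1 p) - (kp p - aa p) ^ 2) ≤
      kp p * c1 p - aa p ^ 2)
    (hy : y ^ (p - 2) * (kp p * (kp p - c1 p) - (kp p - aa p) ^ 2) ≤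
      kp p * c1 p - aa p ^ 2) :
    StrictN p x y 1 (kp p) := by
  intro ι κ _ _ _ _ A₁ D₁ A₂ D₂ h1 h2 h1m h1p h3 h4' h2m h2p
  obtain ⟨U, a, D₁', hU, rfl, rfl, hp1, r1⟩ := Pool.Agent.Lib_helper41.AAN.red A₁ D₁ h1 h2
  obtain ⟨V, b, D₂', hV, rfl, rfl, hp2, r2⟩ := Pool.Agent.Lib_helper41.AAN.red A₂ D₂ h3 h4'
  rw [G56.kron_conj, G56.kron_conj, G56.G_conj p hU hp1.pos.1 hp1.isPair.hermD,
    G56.G_conj p hV hp2.pos.1 hp2.isPair.hermD,
    G56.G_conj p (G56.kron_unitary hU hV) (hp1.isPair.kron hp2.isPair).hermA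
      (hp1.isPair.kron hp2.isPair).hermD, one_mul]
  exact noisy_dg h4 h5 hx0 hy0 hx hy (fun i => G56.dg_pos hp1.pos i)
    (fun i => G56.dg_pos hp2.pos i) hp1.isPair hp2.isPair ((r1 x).1 h1m) ((r1 x).2 h1p)
    ((r2 y).1 h2m) ((r2 y).2 h2p)

end Pool.Agent.Lib_helper53.AAN
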