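import Pool.Agent.Lib_helper53.AAN.Win45b

/-!
# The window `4 < α < 5`: states
-/

set_option autoImplicit false

open scoped BigOperators ComplexOrder Kronecker MatrixOrder
open MeasureTheory Set Matrix

namespace Pool.Agent.Lib_helper53.AAN

open Pool.Agent.RC Pool.Agent.Lib_helper98.Renyi Pool.Agent.Lib_helper98.GC34
  Pool.Agent.Lib_helper11.AAN

variable {ι κ : Type} [Fintype ι] [DecidableEq ι] [Fintype κ] [DecidableEq κ]

/-- with `N = α (α - 1) / 2`, `κ = 2 ^ (α - 1) - 1`, `a = α (2 ^ (α - 2) - 1) / (α - 2)`: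
`(κ N - a ^ 2) / (κ (κ - N) - (κ - a) ^ 2)` -/
noncomputable def s0 (α : ℝ) : ℝ :=
  (kp α * c1 α - aa α ^ 2) / (kp α * (kp α - c1 α) - (kp α - aa α) ^ 2)

theorem den_pos {α : ℝ} (h4 : 4 < α) (h5 : α < 5) :
    0 < kp α * (kp α - c1 α) - (kp α - aa α) ^ 2 := by
  have k1 := c1_le_aa h4 h5
  have k2 := aa_lt_kp h4
  have k0 : 0 < c1 α := by unfold c1; nlinarith
  have e : kp α * (kp α - c1 α) - (kp α - aa α) ^ 2 =
      aa α * (kp α - aa α) + kp α * (aa α - c1 α) := by ring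
  rw [e]
  have := mul_pos (show 0 < aa α by linarith) (show 0 < kp α - aa α by linarith)
  have := mul_nonneg (show 0 ≤ kp α by linarith) (show 0 ≤ aa α - c1 α by linarith)
  linarith

/-- **all states, `4 < α < 5`** -/
theorem states_all {α : ℝ} (h4 : 4 < α) (h5 : α < 5)
    {σ₁ : Fin 2 → Matrix ι ι ℂ} {σ₂ : Fin 2 → Matrix κ κ ℂ}
    (h₁ : ∀ x, IsDensity (σ₁ x)) (h₂ : ∀ x, IsDensity (σ₂ x)) :
    (α - 1) * (α - 2) / (2 * (2 ^ (α - 2) - 1)) *
        ((Kof α (condH α (cqState σ₁)) - 2 ^ (1 - α)) *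
          (Kof α (condH α (cqState σ₂)) - 2 ^ (1 - α)) / (1 - 2 ^ (1 - α))) ≤
      Kof α (Hsum α σ₁ σ₂) - 2 ^ (1 - α) := by
  have hα : 1 < α := by linarith
  have key := Pool.Agent.Lib_helper4.AAN.key_of_strict (by linarith) zero_le_one zero_le_one
    (strictN_all h4 h5) h₁ h₂ (Pool.Agent.Lib_helper4.AAN.noise_one h₁)
    (Pool.Agent.Lib_helper4.AAN.noise_one h₂)
  have k1 := c1_le_aa h4 h5
  have k2 := aa_lt_kp h4
  have k0 : 0 < c1 α := by unfold c1; nlinarith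
  have hH : 0 < aa α * kp α := mul_pos (by linarith) (by linarith)
  have h := Pool.Agent.Lib_helper4.AAN.K_bound h₁ h₂ hα hH key
  have h2 : 0 < (2 : ℝ) ^ (α - 2) - 1 := by
    have : 1 < (2 : ℝ) ^ (α - 2) := Real.one_lt_rpow (by norm_num) (by linarith)
    linarith
  have hkp : Pool.Agent.Lib_helper4.AAN.kp α = kp α := rfl
  have hk0 : 0 < kp α := by linarith
  have e : Pool.Agent.Lib_helper4.AAN.nn α * Pool.Agent.Lib_helper4.AAN.kp α / (aa α * kp α) =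
      (α - 1) * (α - 2) / (2 * (2 ^ (α - 2) - 1)) := by
    rw [hkp, mul_div_mul_right _ _ hk0.ne']
    unfold Pool.Agent.Lib_helper4.AAN.nn aa
    have h3 : α - 2 ≠ 0 := by linarith
    have h4' : α ≠ 0 := by linarith
    field_simp
  rw [e] at h
  exact h

/-- **noisy states, `4 < α < 5`** -/
theorem states_noisy {α x y : ℝ} (h4 : 4 < α) (h5 : α < 5)
    {σ₁ : Fin 2 → Matrix ι ι ℂ} {σ₂ : Fin 2 → Matrix κ κ ℂ}
    (h₁ : ∀ x, IsDensity (σ₁ x)) (h₂ : ∀ x, IsDensity (σ₂ x)) (hx0 : 0 ≤ x) (hy0 : 0 ≤ y)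
    (hx : x ^ (α - 2) ≤ s0 α) (hy : y ^ (α - 2) ≤ s0 α)
    (n₁ : Pool.Agent.Lib_helper4.AAN.Noise x σ₁) (n₂ : Pool.Agent.Lib_helper4.AAN.Noise y σ₂) :
    Hsum α σ₁ σ₂ ≤ Fval α σ₁ σ₂ := by
  have hd := den_pos h4 h5
  unfold s0 at hx hy
  rw [le_div_iff₀ hd] at hx hy
  have key := Pool.Agent.Lib_helper4.AAN.key_of_strict (by linarith) hx0 hy0
    (strictN_noisy h4 h5 hx0 hy0 hx hy) h₁ h₂ n₁ n₂
  rw [one_mul] at key
  exact Hsum_le_Fval h₁ h₂ (by linarith) (by linarith) key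

end Pool.Agent.Lib_helper53.AAN
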